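import Pool.Agent.UFC.Asm2
import Pool.Agent.UFC.Bridge
import Pool.Agent.UFC.Eq
import Pool.Agent.UFC.Quad

/-!
# Comparison of `N(t)`, `t! M(t)` and the number of solutions in distinct denominators

`1 = 1/x_1 + ⋯ + 1/x_t` in positive integers.  The numbers of ordered solutions, of solutions up to
permutation and of solutions in distinct denominators are compared for all large `t`.
-/

namespace Pool.Agent.Results.MP_dcc108_nt.Comparison

/-- The set of all `t`-tuples of positive integers with `∑ 1 / x i = 1`. -/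
def Sol (t : ℕ) : Set (Fin t → ℕ) :=
  {x | (∀ i, 0 < x i) ∧ ∑ i, (1 : ℚ) / (x i : ℚ) = 1}

/-- The number of ordered solutions. -/
noncomputable def N (t : ℕ) : ℕ := (Sol t).ncard

/-- The number of non-decreasing solutions, that is, of solutions up to permutation. -/
noncomputable def M (t : ℕ) : ℕ := {x ∈ Sol t | Monotone x}.ncard

/-- The number of strictly increasing solutions, that is, of sets of `t` positive integers whose
reciprocals sum to `1`. -/
noncomputable def F (t : ℕ) : ℕ := {x ∈ Sol t | StrictMono x}.ncard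

/-- **Comparison of the counting functions.**  The set of solutions is finite; `M` and `F` are
supermultiplicative, `M t ≤ 2 F t + t M (t - 1)`; and there are `C > 0` and `t₀` such that for all
`t ≥ t₀`:

* `N t ≤ t! M t ≤ (log t) ^ C * N t`;
* `t * M (t - 1) ≤ C * log log t * M t`;
* `M t ≤ exp (C log t log log t) * F t`, and `M t ≤ F u` for all `u ≥ t + C log log t`;
* all but at most `exp (-(log t) ^ 2) * M t` of the solutions counted by `M t` have at least
  `t - C log log t` distinct denominators;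
* for some `u` with `t ≤ u ≤ t + C log log t` one has `F u ≥ (1/2 - 1/u) M u` and
  `N u ≥ (7/12 - 1/u) u! M u`. -/
theorem result :
    (∀ t : ℕ, (Sol t).Finite) ∧
    (∀ r t : ℕ, 2 ≤ t → M (r + 1) * M t ≤ M (r + t) ∧ F (r + 1) * F t ≤ F (r + t)) ∧
    (∀ t : ℕ, 2 ≤ t → M t ≤ 2 * F t + t * M (t - 1)) ∧
    ∃ C : ℝ, 0 < C ∧ ∃ t₀ : ℕ, ∀ t : ℕ, t₀ ≤ t →
      N t ≤ t.factorial * M t ∧
      ((t.factorial * M t : ℕ) : ℝ) ≤ Real.log t ^ C * (N t : ℝ) ∧
      (t : ℝ) * (M (t - 1) : ℝ) ≤ C * Real.log (Real.log t) * (M t : ℝ) ∧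
      (M t : ℝ) ≤ Real.exp (C * Real.log t * Real.log (Real.log t)) * (F t : ℝ) ∧
      (∀ u : ℕ, t + C * Real.log (Real.log t) ≤ (u : ℝ) → M t ≤ F u) ∧
      ({x ∈ Sol t | Monotone x ∧
        ((Finset.univ.image x).card : ℝ) < t - C * Real.log (Real.log t)}.ncard : ℝ) ≤
          Real.exp (-(Real.log t) ^ 2) * (M t : ℝ) ∧
      ∃ u : ℕ, t ≤ u ∧ (u : ℝ) ≤ t + C * Real.log (Real.log t) ∧
        (1 / 2 - 1 / (u : ℝ)) * (M u : ℝ) ≤ (F u : ℝ) ∧
        (7 / 12 - 1 / (u : ℝ)) * ((u.factorial * M u : ℕ) : ℝ) ≤ (N u : ℝ) :=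
  ⟨Pool.Agent.UFC.sol_fin, Pool.Agent.UFC.final Pool.Agent.UFC.t_EQ Pool.Agent.UFC.t_QUAD
    Pool.Agent.UFC.t_BRA Pool.Agent.UFC.t_BRB Pool.Agent.UFC.t_BRC⟩

end Pool.Agent.Results.MP_dcc108_nt.Comparison
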