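import Pool.Agent.Lib_helper63.EF.UB
import Pool.Agent.Lib_helper77.EF.LS
import Pool.Agent.Lib_helper83.EF.DBridge

/-!
# The number of representations of `1` as a sum of `t` unit fractions is doubly exponential in `t`
-/

namespace Pool.Agent.Results.MP_dcc108_nt.DoublyExponential

/-- The set of all `t`-tuples of positive integers with `∑ 1 / x i = 1`. -/
def Sol (t : ℕ) : Set (Fin t → ℕ) :=
  {x | (∀ i, 0 < x i) ∧ ∑ i, (1 : ℚ) / (x i : ℚ) = 1}

/-- The number of ordered solutions. -/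
noncomputable def N (t : ℕ) : ℕ := (Sol t).ncard

/-- The number of non-decreasing solutions, that is, of solutions up to permutation. -/
noncomputable def M (t : ℕ) : ℕ := {x ∈ Sol t | Monotone x}.ncard

/-- The number of strictly increasing solutions, that is, of sets of `t` positive integers whose
reciprocals sum to `1`. -/
noncomputable def F (t : ℕ) : ℕ := {x ∈ Sol t | StrictMono x}.ncard

/-- **Exact order of `log log M(t)` and `log log N(t)`.**  For all large `t`,
`exp (exp (t / 400)) ≤ F t ≤ M t ≤ N t ≤ exp (exp t)`. -/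
theorem result :
    (∀ t : ℕ, (Sol t).Finite) ∧
      ∃ t₀ : ℕ, ∀ t : ℕ, t₀ ≤ t →
        Real.exp (Real.exp ((t : ℝ) / 400)) ≤ (F t : ℝ) ∧ F t ≤ M t ∧ M t ≤ N t ∧
          (N t : ℝ) ≤ Real.exp (Real.exp (t : ℝ)) := by
  obtain ⟨hfin, t₁, h₁⟩ := Pool.Agent.Lib_helper63.EF.ub
  have hF : ∀ t, {x ∈ Sol t | StrictMono x} = Pool.Agent.Lib_helper83.EF.IncSol t := by
    intro t
    ext x
    exact ⟨fun h => ⟨h.2, h.1.1, h.1.2⟩, fun h => ⟨⟨h.2.1, h.2.2⟩, h.1⟩⟩
  obtain ⟨t₂, h₂⟩ := Pool.Agent.Lib_helper83.EF.inc_lower Pool.Agent.Lib_helper77.EF.ls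
    (fun t => (hfin t).subset (Pool.Agent.Lib_helper83.EF.incSol_subset t))
  refine ⟨hfin, max t₁ t₂, fun t ht => ⟨?_, ?_, ?_, h₁ t (le_trans (le_max_left _ _) ht)⟩⟩
  · unfold F
    rw [hF]
    exact h₂ t (le_trans (le_max_right _ _) ht)
  · exact Set.ncard_le_ncard (fun x hx => ⟨hx.1, hx.2.monotone⟩)
      ((hfin t).subset fun x hx => hx.1)
  · exact Set.ncard_le_ncard (fun x hx => hx.1) (hfin t)

end Pool.Agent.Results.MP_dcc108_nt.DoublyExponential
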