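import Pool.Agent.UFL.Asm

/-!
# Representations of every rational number as a sum of `t` unit fractions
-/

namespace Pool.Agent.Results.MP_dcc108_nt.EveryRational

/-- The set of all `t`-tuples of positive integers with `∑ 1 / x i = q`. -/
def Sol (q : ℚ) (t : ℕ) : Set (Fin t → ℕ) :=
  {x | (∀ i, 0 < x i) ∧ ∑ i, (1 : ℚ) / (x i : ℚ) = q}

/-- The number of ordered solutions; `N 1 t` is the `N(t)` of the problem. -/
noncomputable def N (q : ℚ) (t : ℕ) : ℕ := (Sol q t).ncard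

/-- The number of non-decreasing solutions; `M 1 t` is the `M(t)` of the problem. -/
noncomputable def M (q : ℚ) (t : ℕ) : ℕ := {x ∈ Sol q t | Monotone x}.ncard

/-- The number of strictly increasing solutions among whose entries all members of `A` and no
members of `B` occur. -/
noncomputable def F (A B : Finset ℕ) (q : ℚ) (t : ℕ) : ℕ :=
  {x ∈ Sol q t | StrictMono x ∧ (∀ n ∈ A, ∃ i, x i = n) ∧ ∀ i, x i ∉ B}.ncard

/-- **Every rational number has doubly exponentially many representations as a sum of `t` distinct unit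
fractions, with prescribed and forbidden denominators; every `a / b` in `(0, 1)` is a sum of
`O(log log b)` distinct unit fractions.** -/
theorem result :
    (∀ a b t : ℕ, 1 ≤ a → a ≤ b → (Sol ((a : ℚ) / b) t).Finite) ∧
    (∃ C : ℝ, ∀ a b : ℕ, 1 ≤ a → a < b → 3 ≤ b →
      (∃ S : Finset ℕ, (∀ n ∈ S, 1 ≤ n) ∧ (S.card : ℝ) ≤ C * Real.log (Real.log b) ∧
        ∑ n ∈ S, (1 : ℚ) / (n : ℚ) = (a : ℚ) / b) ∧
      ∀ u : ℕ, C * Real.log (Real.log b) ≤ u → ∀ t : ℕ,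
        M 1 t ≤ M ((a : ℚ) / b) (t + u) ∧ M ((a : ℚ) / b) t ≤ M 1 (t + u) ∧
        N 1 t ≤ N ((a : ℚ) / b) (t + u) ∧ N ((a : ℚ) / b) t ≤ N 1 (t + u)) ∧
    ∃ c : ℝ, 0 < c ∧ ∃ t₀ : ℕ, ∀ t ≥ t₀,
      (∀ n : ℕ, 2 ≤ n → (n : ℝ) ≤ Real.exp (Real.exp (c * t)) →
        Real.exp (Real.exp (c * t)) ≤ (F {n} ∅ 1 t : ℝ)) ∧
      ∀ (a b L : ℕ) (A B : Finset ℕ), 1 ≤ a → a ≤ b → 1 ≤ L → b ∣ L → (∀ n ∈ A, n ∣ L) →
        (L : ℝ) ≤ Real.exp (Real.exp (c * t)) →
        (∀ n ∈ B, (n : ℝ) ≤ Real.exp (Real.exp (c * t))) →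
        (A.card : ℝ) + (B.card : ℝ) ≤ c * t → Disjoint A B →
        ∑ n ∈ A, (1 : ℚ) / (n : ℚ) < (a : ℚ) / b →
        Real.exp (Real.exp (c * t)) ≤ (F A B ((a : ℚ) / b) t : ℝ) ∧
          F A B ((a : ℚ) / b) t ≤ M ((a : ℚ) / b) t ∧ M ((a : ℚ) / b) t ≤ N ((a : ℚ) / b) t ∧
          (N ((a : ℚ) / b) t : ℝ) ≤ Real.exp (Real.exp (2 * (t : ℝ))) := by
  have hfin : ∀ a b t : ℕ, 1 ≤ a → a ≤ b → (Sol ((a : ℚ) / b) t).Finite := UFL.t_FIN.1
  obtain ⟨C₁, hC₁⟩ := UFL.asm_ERD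
  obtain ⟨C₂, hC₂⟩ := UFL.asm_CMP
  obtain ⟨t₁, h₁⟩ := UFL.asm_PRE3
  obtain ⟨t₂, h₂⟩ := UFL.asm_UP3
  have hc : ∀ s : ℝ, 1 / 50000 * s = s / 50000 := fun s => by ring
  refine ⟨hfin, ⟨max C₁ C₂, fun a b ha hab hb => ?_⟩, 1 / 50000, by norm_num,
    max (max t₁ t₂) 50000, fun t ht => ⟨fun n hn hle => ?_, ?_⟩⟩
  · have hb3 : (3 : ℝ) ≤ b := by exact_mod_cast hb
    have hl : 1 < Real.log b := by
      have h3 : 1 < Real.log 3 := by
        rw [Real.lt_log_iff_exp_lt (by norm_num)]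
        exact lt_trans Real.exp_one_lt_d9 (by norm_num)
      exact h3.trans_le (Real.log_le_log (by norm_num) hb3)
    have hll : 0 ≤ Real.log (Real.log b) := (Real.log_pos hl).le
    refine ⟨?_, fun u hu t => ?_⟩
    · obtain ⟨S, hS1, hS2, hS3⟩ := hC₁ a b ha hab hb
      exact ⟨S, hS1, hS2.trans (mul_le_mul_of_nonneg_right (le_max_left _ _) hll), hS3⟩
    · obtain ⟨⟨e1, e2⟩, e3, e4⟩ := hC₂ a b ha hab hb u
        ((mul_le_mul_of_nonneg_right (le_max_right _ _) hll).trans hu) t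
      exact ⟨e3, e4, e1, e2⟩
  · have ht1 : t₁ ≤ t := (le_max_left _ _).trans ((le_max_left _ _).trans ht)
    have ht3 : (50000 : ℝ) ≤ t := by exact_mod_cast (le_max_right _ _).trans ht
    rw [hc] at hle ⊢
    have hn1 : (1 : ℚ) / (n : ℚ) < 1 := by
      have h2 : (2 : ℚ) ≤ n := by exact_mod_cast hn
      rw [div_lt_one (by linarith)]
      linarith
    have h := h₁ t ht1 1 1 n {n} ∅ le_rfl le_rfl (by omega) (one_dvd n)
      (fun k hk => by rw [Finset.mem_singleton.1 hk]) hle (by simp)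
      (by rw [Finset.card_singleton, Finset.card_empty]; push_cast; linarith) (by simp)
      (by simpa using hn1)
    have e : ((1 : ℕ) : ℚ) / ((1 : ℕ) : ℚ) = 1 := by norm_num
    rw [e] at h
    exact h
  · intro a b L A B ha hab hL hbL hA hLe hB hAB hdis hsum
    have ht1 : t₁ ≤ t := (le_max_left _ _).trans ((le_max_left _ _).trans ht)
    have ht2 : t₂ ≤ t := (le_max_right _ _).trans ((le_max_left _ _).trans ht)
    rw [hc] at hLe hAB ⊢
    simp only [hc] at hB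
    have hbL' : (b : ℝ) ≤ L := by exact_mod_cast Nat.le_of_dvd hL hbL
    refine ⟨h₁ t ht1 a b L A B ha hab hL hbL hA hLe hB hAB hdis hsum,
      ?_, ?_, h₂ t ht2 a b ha hab (hbL'.trans hLe)⟩
    · exact Set.ncard_le_ncard (fun x hx => ⟨hx.1, hx.2.1.monotone⟩)
        ((hfin a b t ha hab).subset fun x hx => hx.1)
    · exact Set.ncard_le_ncard (fun x hx => hx.1) (hfin a b t ha hab)

end Pool.Agent.Results.MP_dcc108_nt.EveryRational
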