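import Pool.Agent.UFU.REL
import Pool.Agent.UFU.DEC
import Pool.Agent.UFU.GEO
import Pool.Agent.UFU.KEY
import Pool.Agent.UFU.CL1
import Pool.Agent.UFU.CL2
import Pool.Agent.UFU.CL3
import Pool.Agent.UFU.LST
import Pool.Agent.UFU.COMB
import Pool.Agent.UFU.CORE
import Pool.Agent.UFU.REC
import Pool.Agent.UFU.CUR
import Pool.Agent.UFU.SYL
import Pool.Agent.UFU.RCH
import Pool.Agent.UFU.PRE
import Pool.Agent.UFU.LNK
import Pool.Agent.UFU.ASY

/-!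
# An upper bound for the number of representations of `1` as a sum of `t` unit fractions

`N(t) ≤ c ^ ((3 / 16 + ε) 2 ^ t)` for all large `t`, where `c = 1.264…` is the constant of
Sylvester's sequence.
-/

set_option autoImplicit false

open Filter Topology

namespace Pool.Agent.Results.MP_dcc108_nt.UpperBound

/-- The set of all `t`-tuples of positive integers with `∑ 1 / x i = 1`. -/
def Sol (t : ℕ) : Set (Fin t → ℕ) :=
  {x | (∀ i, 0 < x i) ∧ ∑ i, (1 : ℚ) / (x i : ℚ) = 1}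

/-- The number of ordered solutions. -/
noncomputable def N (t : ℕ) : ℕ := (Sol t).ncard

/-- The number of non-decreasing solutions, that is, of solutions up to permutation. -/
noncomputable def M (t : ℕ) : ℕ := {x ∈ Sol t | Monotone x}.ncard

/-- Sylvester's sequence `2, 3, 7, 43, 1807, …`. -/
def syl : ℕ → ℕ
  | 0 => 2
  | n + 1 => syl n ^ 2 - syl n + 1

theorem syl_eq : ∀ n, syl n = Pool.Agent.UFU.syl n
  | 0 => rfl
  | n + 1 => by
    show syl n ^ 2 - syl n + 1 = Pool.Agent.UFU.syl n ^ 2 - Pool.Agent.UFU.syl n + 1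
    rw [syl_eq n]

/-- **Upper bound.**  Let `c = lim (syl n) ^ (1 / 2 ^ (n + 1)) = 1.264…`.  For every `ε > 0` and all
large `t`, `M t ≤ N t ≤ c ^ ((3 / 16 + ε) 2 ^ t)`. -/
theorem result :
    (∀ t : ℕ, (Sol t).Finite) ∧
    ∃ c : ℝ, 1 < c ∧
      Tendsto (fun n : ℕ => (syl n : ℝ) ^ ((1 : ℝ) / 2 ^ (n + 1))) atTop (𝓝 c) ∧
      ∀ ε : ℝ, 0 < ε → ∀ᶠ t : ℕ in atTop,
        M t ≤ N t ∧ (N t : ℝ) ≤ c ^ ((3 / 16 + ε) * 2 ^ t) := by
  have hfin : ∀ t : ℕ, (Sol t).Finite := fun t => (Pool.Agent.UFU.t_LNK t).1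
  have hCOMB : Pool.Agent.UFU.S_COMB :=
    Pool.Agent.UFU.t_COMB (Pool.Agent.UFU.t_DEC Pool.Agent.UFU.t_REL) Pool.Agent.UFU.t_GEO
      Pool.Agent.UFU.t_KEY Pool.Agent.UFU.t_CL1 Pool.Agent.UFU.t_CL2 Pool.Agent.UFU.t_CL3
      Pool.Agent.UFU.t_LST
  have hRCH : Pool.Agent.UFU.S_RCH := Pool.Agent.UFU.t_RCH Pool.Agent.UFU.t_CUR
  obtain ⟨c, hc1, hct, hc⟩ := Pool.Agent.UFU.assemble (Pool.Agent.UFU.t_CORE hCOMB)
    Pool.Agent.UFU.t_REC Pool.Agent.UFU.t_SYL hRCH (Pool.Agent.UFU.t_PRE hRCH)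
    Pool.Agent.UFU.t_LNK Pool.Agent.UFU.t_ASY
  refine ⟨hfin, c, hc1, ?_, fun ε hε => ?_⟩
  · have : (fun n : ℕ => (syl n : ℝ) ^ ((1 : ℝ) / 2 ^ (n + 1))) =
        fun n : ℕ => (Pool.Agent.UFU.syl n : ℝ) ^ ((1 : ℝ) / 2 ^ (n + 1)) := by
      funext n
      rw [syl_eq n]
    rw [this]
    exact hct
  · filter_upwards [hc ε hε] with t ht
    exact ⟨Set.ncard_le_ncard (fun x hx => hx.1) (hfin t), ht⟩

end Pool.Agent.Results.MP_dcc108_nt.UpperBound
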